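import Mathlib
import Pool.Agent.Helper56.TOF.Goals

/-!
# Project TOF (MP_f32c9c_an), packet MEB: some `al` is good
-/

set_option autoImplicit false

open Set Filter Topology MeasureTheory

open scoped ContDiff

namespace Pool.Agent.Helper66.TOF

open Pool.Agent.Helper56.RZ Pool.Agent.Helper30.CIR Pool.Agent.Helper56.TOF

/-- the perturbed map maps `M` into `M` -/
theorem gT_maps {K : ℕ} {s : WithTop ℕ∞} {M : Set (E K)} {A : ℝ → E K → E K} (hA : Flow s M A)
    (Φ : ℂ × ℝ × ℝ → ℝ) (B tau : E K → ℝ) (b0 : ℝ) (q r : ℕ) (al : ℝ) :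
    ∀ (n : ℕ) (x : E K), x ∈ M → (gT A Φ B tau b0 q r al)^[n] x ∈ M := by
  intro n
  induction n with
  | zero => intro x hx; exact hx
  | succ n ih =>
    intro x hx
    rw [Function.iterate_succ_apply]
    apply ih
    exact hA.maps _ (hA.maps _ hx)

/-- the set `S` has the form `M ∩ U` with an open set `U` -/
theorem exU {K : ℕ} {s : WithTop ℕ∞} {M : Set (E K)} {A : ℝ → E K → E K}
    {b B tau : E K → ℝ} {p : E K} (hB : Box s M A b B tau p) :
    ∃ U : Set (E K), IsOpen U ∧ ∀ x, x ∈ M ∩ U ↔ x ∈ M ∧ 0 < B x ∧ 5 / 2 < tau x ∧ tau x < 17 / 5 := by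
  have h1 : ContinuousOn B M := hB.Bsm.continuousOn
  have h2 : ContinuousOn tau (M ∩ {x | 0 < B x}) := hB.tsm.continuousOn
  obtain ⟨U1, hU1, e1⟩ := (continuousOn_iff'.1 h1) (Ioi 0) isOpen_Ioi
  obtain ⟨U2, hU2, e2⟩ := (continuousOn_iff'.1 h2) (Ioo (5 / 2) (17 / 5)) isOpen_Ioo
  refine ⟨U1 ∩ U2, hU1.inter hU2, fun x => ?_⟩
  have f1 : (x ∈ U1 ∧ x ∈ M) ↔ (0 < B x ∧ x ∈ M) := by
    have := congrArg (fun T : Set (E K) => x ∈ T) e1
    simp only [mem_inter_iff, mem_preimage, mem_Ioi] at this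
    rw [eq_comm] at this
    exact iff_of_eq this
  have f2 : (x ∈ U2 ∧ (x ∈ M ∧ 0 < B x)) ↔ ((5 / 2 < tau x ∧ tau x < 17 / 5) ∧ (x ∈ M ∧ 0 < B x)) := by
    have := congrArg (fun T : Set (E K) => x ∈ T) e2
    simp only [mem_inter_iff, mem_preimage, mem_Ioo, mem_ofPred_eq] at this
    rw [eq_comm] at this
    exact iff_of_eq this
  constructor
  · rintro ⟨hM, hx1, hx2⟩
    have hb := (f1.1 ⟨hx1, hM⟩).1
    have ht := (f2.1 ⟨hx2, hM, hb⟩).1
    exact ⟨hM, hb, ht.1, ht.2⟩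
  · rintro ⟨hM, hb, ht1, ht2⟩
    exact ⟨hM, (f1.2 ⟨hb, hM⟩).1, (f2.2 ⟨⟨ht1, ht2⟩, hM, hb⟩).1⟩

theorem gMEB : StmtAVG → StmtAB2 → StmtPOS → StmtJK → StmtNU → StmtMEB := by
  intro hAVG hAB2 hPOS hJK hNU
  intro N K r s M m μ A b B tau p b0 z0 Φ Φ' h hr hrs hs hM hA hB hb0 hBp hPair hFB hp hsup hh hrh
  obtain ⟨β, q0, hβ, hq0⟩ := hAVG N K r s M m μ A b B tau p b0 z0 Φ Φ' h hr hrs hs hM hA hB hb0 hBp
    hPair hFB hp hsup hh hrh
  have hz0 : 0 < z0 := hPair.pf.pos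
  obtain ⟨n1, hn1⟩ := exists_nat_gt (1 / z0)
  refine ⟨max q0 (max 1 n1), fun q hq hpos => ?_⟩
  have hqq0 : q0 ≤ q := le_trans (le_max_left _ _) hq
  have hq1 : 1 ≤ q := le_trans (le_trans (le_max_left _ _) (le_max_right _ _)) hq
  have hqn : n1 ≤ q := le_trans (le_trans (le_max_right _ _) (le_max_right _ _)) hq
  have hqR : (1 : ℝ) ≤ q := by exact_mod_cast hq1
  have hcq0 : 0 < cq q r := by unfold cq; positivity
  have hcqz : cq q r < z0 := by
    unfold cq
    have h1 : (q : ℝ) ≤ (q : ℝ) ^ r := by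
      calc (q : ℝ) = (q : ℝ) ^ 1 := (pow_one _).symm
        _ ≤ (q : ℝ) ^ r := pow_le_pow_right₀ hqR hr
    have h2 : 1 / z0 < (q : ℝ) ^ r := by
      have : (n1 : ℝ) ≤ q := by exact_mod_cast hqn
      linarith
    rw [inv_lt_comm₀ (by positivity) hz0]
    rwa [one_div] at h2
  have hs1 : (1 : WithTop ℕ∞) ≤ s := le_trans (by exact_mod_cast hr) hrs
  obtain ⟨hJ1, hJ2⟩ := hJK K s M A b B tau p b0 z0 Φ q r hs1 hs hA hB hb0 hPair.pf hq1 hcqz
  obtain ⟨hνp, hνI, -⟩ := hNU h (r + 1) hh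
  have hae := hq0 q hqq0
  set I : Set ℝ := Icc (1 : ℝ) (1 + (r + 1) * h) with hI
  have hIpos : I ⊆ Ioi 0 := fun al hal => lt_of_lt_of_le one_pos hal.1
  have hI2 : ∀ al ∈ I, al ≤ 2 := fun al hal => by linarith [hal.2]
  have hνI' : ∀ᵐ α ∂(nu h (r + 1)), α ∈ I := by
    filter_upwards [hνI] with α hα
    rw [hI]
    push_cast at hα
    exact hα
  have : IsFiniteMeasure m := ⟨lt_top_iff_ne_top.2 hM.finite⟩
  have := hνp
  have hMc : IsCompact M := hM.compact
  have hMm : MeasurableSet M := hMc.isClosed.measurableSet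
  have hmM : ∀ᵐ x ∂m, x ∈ M := by
    rw [ae_iff]; exact hM.null
  obtain ⟨U, hU, hUiff⟩ := exU hB
  -- the set S
  have hSm : MeasurableSet (M ∩ U) := hMm.inter hU.measurableSet
  have hSpos : 0 < m (M ∩ U) := by
    apply hPOS N K M m U hM hU
    have hbp := hB.near p hp (ne_of_gt hB.bp)
    obtain ⟨hb1, hb2⟩ := hbp
    rw [abs_le] at hb2
    have hu := hB.eqv p hp (3 - tau p) hb1 (by rw [abs_le]; constructor <;> linarith)
      (by rw [abs_le]; constructor <;> linarith)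
    refine ⟨A (3 - tau p) p, (hUiff _).2 ⟨hA.maps _ hp, ?_, ?_, ?_⟩⟩
    · rw [hu.1]; exact hb1
    · rw [hu.2]; linarith
    · rw [hu.2]; linarith
  -- continuity of the terms
  have hterm : ∀ j : ℕ, ContinuousOn (fun v : ℝ × E K =>
      Real.log (kapT A (uu Φ B tau b0 q r v.1) ((gT A Φ B tau b0 q r v.1)^[j] v.2))) (I ×ˢ M) := by
    intro j
    have hsub : I ×ˢ M ⊆ Ioi (0 : ℝ) ×ˢ M := prod_mono hIpos (le_refl _)
    have h1 : ContinuousOn (fun v : ℝ × E K => (v.1, (gT A Φ B tau b0 q r v.1)^[j] v.2)) (I ×ˢ M) :=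
      continuousOn_fst.prodMk ((hJ2 j).mono hsub)
    have h2 : MapsTo (fun v : ℝ × E K => (v.1, (gT A Φ B tau b0 q r v.1)^[j] v.2)) (I ×ˢ M)
        (Ioi (0 : ℝ) ×ˢ M) := by
      rintro ⟨al, x⟩ ⟨hal, hx⟩
      exact ⟨hIpos hal, gT_maps hA Φ B tau b0 q r al j x hx⟩
    have h3 := hJ1.comp h1 h2
    apply ContinuousOn.log h3
    rintro ⟨al, x⟩ ⟨hal, hx⟩
    exact ne_of_gt (hpos al hal _ (gT_maps hA Φ B tau b0 q r al j x hx))
  -- the bound
  obtain ⟨C0, hC0⟩ : ∃ C0 : ℝ, ∀ v ∈ I ×ˢ M, |Real.log (kapT A (uu Φ B tau b0 q r v.1) v.2)| ≤ C0 := by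
    have hc : IsCompact (I ×ˢ M) := isCompact_Icc.prod hMc
    have h0 := hterm 0
    simp only [Function.iterate_zero, id] at h0
    obtain ⟨C0, h⟩ := hc.exists_bound_of_continuousOn h0
    exact ⟨C0, fun v hv => by simpa [Real.norm_eq_abs] using h v hv⟩
  have hC0n : 0 ≤ C0 := by
    have h1I : (1 : ℝ) ∈ I := ⟨le_refl _, by
      have : 0 ≤ ((r : ℝ) + 1) * h := by positivity
      linarith⟩
    exact le_trans (abs_nonneg _) (hC0 (1, p) ⟨h1I, hp⟩)
  have hbound : ∀ n : ℕ, ∀ al ∈ I, ∀ x ∈ M, |vv A Φ B tau b0 q r n al x| ≤ 2 * C0 := by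
    intro n al hal x hx
    unfold vv
    rcases Nat.eq_zero_or_pos n with hn | hn
    · subst hn
      simp only [Nat.cast_zero, div_zero, abs_zero]
      linarith
    · have hnR : (0 : ℝ) < n := by exact_mod_cast hn
      rw [abs_div, abs_of_pos hnR, div_le_iff₀ hnR]
      calc |∑ k ∈ Finset.range ⌊al * n⌋₊,
            Real.log (kapT A (uu Φ B tau b0 q r al) ((gT A Φ B tau b0 q r al)^[k] x))|
          ≤ ∑ k ∈ Finset.range ⌊al * n⌋₊,
            |Real.log (kapT A (uu Φ B tau b0 q r al) ((gT A Φ B tau b0 q r al)^[k] x))| :=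
            Finset.abs_sum_le_sum_abs _ _
        _ ≤ ∑ k ∈ Finset.range ⌊al * n⌋₊, C0 := by
            apply Finset.sum_le_sum
            intro k _
            exact hC0 (al, _) ⟨hal, gT_maps hA Φ B tau b0 q r al k x hx⟩
        _ = (⌊al * n⌋₊ : ℝ) * C0 := by rw [Finset.sum_const, Finset.card_range, nsmul_eq_mul]
        _ ≤ (2 * n) * C0 := by
            apply mul_le_mul_of_nonneg_right _ hC0n
            have h0 : 0 ≤ al * n := mul_nonneg (le_of_lt (hIpos hal)) hnR.le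
            calc (⌊al * n⌋₊ : ℝ) ≤ al * n := Nat.floor_le h0
              _ ≤ 2 * n := mul_le_mul_of_nonneg_right (hI2 al hal) hnR.le
        _ = 2 * C0 * n := by ring
  -- measurability
  have hImeas : MeasurableSet (I ×ˢ M) := measurableSet_Icc.prod hMm
  have hprod : ∀ᵐ w ∂((nu h (r + 1)).prod m), w ∈ I ×ˢ M := by
    have h1 : ∀ᵐ w ∂((nu h (r + 1)).prod m), w.1 ∈ I :=
      Measure.quasiMeasurePreserving_fst.ae hνI'
    have h2 : ∀ᵐ w ∂((nu h (r + 1)).prod m), w.2 ∈ M :=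
      Measure.quasiMeasurePreserving_snd.ae hmM
    filter_upwards [h1, h2] with w a1 a2
    exact ⟨a1, a2⟩
  have hmeas : ∀ n : ℕ, AEStronglyMeasurable (fun w : ℝ × E K => vv A Φ B tau b0 q r n w.1 w.2)
      ((nu h (r + 1)).prod m) := by
    intro n
    rw [← Measure.restrict_eq_self_of_ae_mem hprod]
    -- the function with a fixed value of the floor
    set F : ℕ → ℝ × E K → ℝ := fun k w => (∑ j ∈ Finset.range k,
      Real.log (kapT A (uu Φ B tau b0 q r w.1) ((gT A Φ B tau b0 q r w.1)^[j] w.2))) / n with hF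
    have hFc : ∀ k, AEStronglyMeasurable (F k) (((nu h (r + 1)).prod m).restrict (I ×ˢ M)) := by
      intro k
      apply ContinuousOn.aestronglyMeasurable _ hImeas
      apply ContinuousOn.div_const
      exact continuousOn_finsetSum _ fun j _ => hterm j
    have hTm : ∀ k : ℕ, MeasurableSet {w : ℝ × E K | ⌊w.1 * n⌋₊ = k} := by
      intro k
      have : Measurable (fun w : ℝ × E K => ⌊w.1 * (n : ℝ)⌋₊) :=
        Nat.measurable_floor.comp (measurable_fst.mul_const _)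
      exact this (measurableSet_singleton k)
    have hsum : AEStronglyMeasurable (fun w : ℝ × E K => ∑ k ∈ Finset.range (2 * n + 1),
        ({w : ℝ × E K | ⌊w.1 * n⌋₊ = k}.indicator (F k)) w)
        (((nu h (r + 1)).prod m).restrict (I ×ˢ M)) := by
      apply Finset.aestronglyMeasurable_fun_sum
      intro k _
      exact (hFc k).indicator (hTm k)
    refine hsum.congr ?_
    filter_upwards [ae_restrict_mem hImeas] with w hw
    have hk : ⌊w.1 * n⌋₊ ∈ Finset.range (2 * n + 1) := by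
      rw [Finset.mem_range]
      have h0 : (0 : ℝ) ≤ w.1 * n := mul_nonneg (le_of_lt (hIpos hw.1)) (Nat.cast_nonneg n)
      have h1 : (⌊w.1 * n⌋₊ : ℝ) ≤ 2 * n := by
        calc (⌊w.1 * n⌋₊ : ℝ) ≤ w.1 * n := Nat.floor_le h0
          _ ≤ 2 * n := mul_le_mul_of_nonneg_right (hI2 _ hw.1) (Nat.cast_nonneg n)
      have h2 : ⌊w.1 * n⌋₊ ≤ 2 * n := by exact_mod_cast h1
      omega
    rw [Finset.sum_eq_single_of_mem _ hk]
    · rw [indicator_of_mem (by simp)]
      rfl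
    · intro k _ hne
      rw [indicator_of_notMem]
      intro hmem
      exact hne hmem.symm
  -- apply AB2
  obtain ⟨al, hal, hnot⟩ := hAB2 (E K) m (nu h (r + 1)) 1 (1 + (r + 1) * h) (2 * C0)
    (β * cq q r ^ 2) (M ∩ U) (fun n al x => vv A Φ B tau b0 q r n al x) hνI' hSm hSpos
    (by positivity) hmeas
    (fun n al hal => by
      filter_upwards [hmM] with x hx
      exact hbound n al hal x hx)
    (by
      filter_upwards [hae] with x hx hxS
      have h4 := (hUiff x).1 hxS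
      exact hx h4.2.1 h4.2.2.1 h4.2.2.2.le)
  refine ⟨al, hal, fun hcon => hnot ?_⟩
  filter_upwards [hcon] with x hx lam hlam
  have hal1 : 1 ≤ al := hal.1
  have htend : Tendsto (fun n : ℕ => ⌊al * n⌋₊) atTop atTop := by
    apply tendsto_atTop_mono (f := fun n : ℕ => n) _ tendsto_id
    intro n
    apply Nat.le_floor
    have : (0 : ℝ) ≤ n := Nat.cast_nonneg n
    nlinarith
  have hev := htend.eventually (hx (lam / 2) (by linarith))
  filter_upwards [hev, eventually_gt_atTop 0] with n hn hn0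
  have hnR : (0 : ℝ) < n := by exact_mod_cast hn0
  have hk1 : n ≤ ⌊al * n⌋₊ := by
    apply Nat.le_floor
    nlinarith
  have hkR : (0 : ℝ) < (⌊al * n⌋₊ : ℝ) := by
    have : (n : ℝ) ≤ (⌊al * n⌋₊ : ℝ) := by exact_mod_cast hk1
    linarith
  have hk2 : (⌊al * n⌋₊ : ℝ) ≤ 2 * n := by
    have h0 : (0 : ℝ) ≤ al * n := by positivity
    calc (⌊al * n⌋₊ : ℝ) ≤ al * n := Nat.floor_le h0
      _ ≤ 2 * n := mul_le_mul_of_nonneg_right (hI2 al hal) hnR.le
  rw [le_div_iff₀ hkR] at hn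
  show lam ≤ vv A Φ B tau b0 q r n al x
  unfold vv
  rw [le_div_iff₀ hnR]
  refine le_trans ?_ hn
  nlinarith

end Pool.Agent.Helper66.TOF
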