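import Pool.Agent.Helper56.TOF.Goals

/-!
# Project TOF, packet ORB (helper66): the orbit on a line
-/

set_option autoImplicit false

open Set Filter Topology MeasureTheory

open scoped ContDiff

namespace Pool.Agent.Helper66.TOF

open Pool.Agent.Helper56.RZ Pool.Agent.Helper30.CIR Pool.Agent.Helper56.TOF

lemma norm_ee (t : ℝ) : ‖ee t‖ = 1 := by
  unfold ee
  exact Complex.norm_exp_ofReal_mul_I _

lemma ee_add_nat (t : ℝ) (n : ℕ) : ee (t + n) = ee t := by
  unfold ee
  have h : ((2 * Real.pi * (t + n) : ℝ) : ℂ) * Complex.I =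
      ((2 * Real.pi * t : ℝ) : ℂ) * Complex.I + n * (2 * Real.pi * Complex.I) := by
    push_cast
    ring
  rw [h, Complex.exp_add, Complex.exp_nat_mul_two_pi_mul_I, mul_one]

lemma ee_q (q k : ℕ) (x : ℝ) : ee (q * (x + k)) = ee (q * x) := by
  have h : (q : ℝ) * (x + k) = q * x + ((q * k : ℕ) : ℝ) := by
    push_cast
    ring
  rw [h, ee_add_nat]

lemma ee_smooth : ContDiff ℝ ∞ ee := by
  unfold ee
  exact (Complex.contDiff_exp (𝕜 := ℝ)).comp
    ((Complex.ofRealCLM.contDiff.comp (contDiff_const.mul contDiff_id)).mul contDiff_const)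

lemma norm_ce {c : ℝ} (hc : 0 ≤ c) (t : ℝ) : ‖(c : ℂ) * ee t‖ = c := by
  rw [norm_mul, norm_ee, mul_one, Complex.norm_real, Real.norm_of_nonneg hc]

lemma inv_q_le {q : ℕ} (hq : 1 ≤ q) : |1 / (q : ℝ)| ≤ 1 := by
  have h1 : (1 : ℝ) ≤ q := by exact_mod_cast hq
  rw [abs_of_nonneg (by positivity)]
  exact (div_le_one (by linarith)).2 h1

section one

variable {z0 : ℝ} {Φ Φ' : ℂ × ℝ × ℝ → ℝ}

/-- the one dimensional profile is differentiable -/
lemma g_diff (hF : PF z0 Φ) {q : ℕ} (hq : 1 ≤ q) {c : ℝ} (hc : 0 ≤ c) (hc1 : c < z0) (v : ℝ) :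
    DifferentiableAt ℝ (fun v : ℝ => Φ ((c : ℂ) * ee (q * v), v, 1 / q) / q) v := by
  have hopen : IsOpen {v : ℂ × ℝ × ℝ | ‖v.1‖ < z0 ∧ |v.2.2| < 2} := by
    apply IsOpen.inter
    · exact isOpen_lt continuous_fst.norm continuous_const
    · exact isOpen_lt (continuous_abs.comp (continuous_snd.comp continuous_snd)) continuous_const
  have hmem : ((c : ℂ) * ee (q * v), v, (1 / q : ℝ)) ∈
      {v : ℂ × ℝ × ℝ | ‖v.1‖ < z0 ∧ |v.2.2| < 2} := by
    refine ⟨?_, ?_⟩
    · simpa only [norm_ce hc] using hc1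
    · exact lt_of_le_of_lt (inv_q_le hq) (by norm_num)
  have h1 : DifferentiableAt ℝ Φ ((c : ℂ) * ee (q * v), v, (1 / q : ℝ)) :=
    ((hF.smooth _ hmem).contDiffAt (hopen.mem_nhds hmem)).differentiableAt (by simp)
  have h2 : DifferentiableAt ℝ (fun v : ℝ => ((c : ℂ) * ee (q * v), v, (1 / q : ℝ))) v := by
    refine DifferentiableAt.prodMk ?_ (DifferentiableAt.prodMk differentiableAt_id
      (differentiableAt_const _))
    exact (((ee_smooth.differentiable (by simp)).comp
      ((differentiable_const (q : ℝ)).mul differentiable_id)) v).const_mul (c : ℂ)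
  exact (h1.comp v h2).div_const _

/-- the derivative of the identity of a step -/
lemma step_deriv (hp : Pair z0 Φ Φ') {q : ℕ} (hq : 1 ≤ q) {c : ℝ} (hc : 0 ≤ c) (hc1 : c < z0)
    {u : ℝ} (h1 : HasDerivAt (Psi q c) (deriv (Psi q c) u) u)
    (h2 : HasDerivAt (Psi q c) (deriv (Psi q c) (u + 1)) (u + 1)) :
    (1 + deriv (fun v : ℝ => Φ ((c : ℂ) * ee (q * v), v, 1 / q) / q) (Psi q c u)) *
      deriv (Psi q c) u = deriv (Psi q c) (u + 1) := by
  have h3 := (g_diff hp.pf hq hc hc1 (Psi q c u)).hasDerivAt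
  have h4 := h3.comp u h1
  have h5 := (h1.add_const 1).add h4
  have h6 : ((fun x => Psi q c x + 1) + (fun v : ℝ => Φ ((c : ℂ) * ee (q * v), v, 1 / q) / q) ∘
      Psi q c) = fun u => Psi q c (u + 1) := by
    funext x
    exact hp.step q c x hq hc hc1
  rw [h6] at h5
  have h7 := h2.comp_add_const u 1
  have h8 := h5.unique h7
  rw [← h8]
  ring

end one

section line

variable {z0 al c0 : ℝ} {Φ Φ' : ℂ × ℝ × ℝ → ℝ} {q : ℕ} {a c : ℕ → ℝ} {d : ℝ → ℝ}

lemma a_mono (L : Line Φ q al c0 a c d) {i j : ℕ} (h : i ≤ j) : a i ≤ a j :=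
  monotone_nat_of_le_succ (fun n => by have := L.gap n; linarith) h

lemma a_ge (L : Line Φ q al c0 a c d) (i : ℕ) : 3 + 7 * (i : ℝ) ≤ a i := by
  induction i with
  | zero => simpa using L.a0
  | succ n ih =>
    have := L.gap n
    push_cast
    linarith

/-- the function `d` vanishes between the passes -/
lemma dzero (hp : Pair z0 Φ Φ') (hq : 1 ≤ q) (hal : 1 ≤ al) (hcz : c0 < z0)
    (L : Line Φ q al c0 a c d) (i : ℕ) (s : ℝ) (h1 : s < a i - 1)
    (h2 : ∀ j, i = j + 1 → a j + 5 / 2 < s) (h3 : i = 0 → 0 ≤ s) :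
    ∀ᶠ t in 𝓝 s, d t = 0 := by
  obtain ⟨e0, he0, hfar⟩ := L.far
  have hq0 : (0 : ℝ) < q := by exact_mod_cast hq
  have hoff : ∀ j t, |t - a j| ≤ 7 / 2 → (al * (t - a j) ≤ -1 ∨ 5 / 2 ≤ al * (t - a j)) →
      d t = 0 := by
    intro j t h4 h5
    rw [L.near j t h4, hp.pf.off _ _ _ _ (inv_q_le hq) h5, zero_div]
    rw [norm_ce (L.c0 j).1]
    exact lt_of_le_of_lt (L.c0 j).2 hcz
  have h4 : ∀ᶠ t in 𝓝 s, t < a i - 1 := eventually_lt_nhds h1
  have h5 : ∀ᶠ t in 𝓝 s, ∀ j, i = j + 1 → a j + 5 / 2 < t := by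
    cases i with
    | zero => exact Eventually.of_forall fun t j hj => by omega
    | succ n =>
      have h6 := h2 n rfl
      filter_upwards [eventually_gt_nhds h6] with t ht j hj
      have : j = n := by omega
      rw [this]
      exact ht
  have h6 : ∀ᶠ t in 𝓝 s, -e0 < t := by
    refine eventually_gt_nhds ?_
    cases i with
    | zero => have := h3 rfl; linarith
    | succ n =>
      have h7 := h2 n rfl
      have h8 := a_ge L n
      have h9 : (0 : ℝ) ≤ n := Nat.cast_nonneg n
      linarith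
  filter_upwards [h4, h5, h6] with t ht1 ht2 ht3
  by_cases hA : |t - a i| ≤ 7 / 2
  · refine hoff i t hA (Or.inl ?_)
    nlinarith
  push Not at hA
  have hi : 7 / 2 < a i - t := by
    rcases lt_abs.1 hA with h | h
    · linarith
    · linarith
  by_cases hB : ∃ j, i = j + 1 ∧ |t - a j| ≤ 7 / 2
  · obtain ⟨j, hj, hB⟩ := hB
    have h7 := ht2 j hj
    refine hoff j t hB (Or.inr ?_)
    nlinarith
  push Not at hB
  refine hfar t ht3 fun k => ?_
  rcases le_or_gt i k with hk | hk
  · have h7 := a_mono L hk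
    refine lt_abs.2 (Or.inr ?_)
    linarith
  · obtain ⟨j, rfl⟩ : ∃ j, i = j + 1 := ⟨i - 1, by omega⟩
    have h7 := a_mono L (show k ≤ j by omega)
    have h8 := ht2 j rfl
    have h9 := hB j rfl
    have h10 : 7 / 2 < t - a j := by
      rcases lt_abs.1 h9 with h | h
      · exact h
      · linarith
    refine lt_abs.2 (Or.inl ?_)
    linarith

/-- one step -/
lemma step (hp : Pair z0 Φ Φ') (hq : 1 ≤ q) (hal : 1 ≤ al) (hcz : c0 < z0)
    (L : Line Φ q al c0 a c d) {C : ℝ} (hPsi : ∀ (q : ℕ) (c : ℝ), 1 ≤ q → 0 ≤ c → c ≤ 1 / 10 →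
      Function.Surjective (Psi q c) ∧ ∀ u : ℝ,
      (u ≤ 0 → Psi q c u = u) ∧ (1 ≤ u → Psi q c u = u - eF ((c : ℂ) * ee (q * u)) / q) ∧
      |Psi q c u - u| ≤ c / q ∧ HasDerivAt (Psi q c) (deriv (Psi q c) u) u ∧
      |deriv (Psi q c) u - 1| ≤ C * c ∧ (u ≤ 0 → deriv (Psi q c) u = 1) ∧
      (1 ≤ u → deriv (Psi q c) u = (1 - c ^ 2) / ‖1 + (c : ℂ) * ee (q * u)‖ ^ 2) ∧
      |eF ((c : ℂ) * ee (q * u))| ≤ c ∧
      ee (-eF ((c : ℂ) * ee (q * u))) * ee (q * u) =
        (ee (q * u) + c) / (1 + (c : ℂ) * ee (q * u)))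
    (i : ℕ) (u s : ℝ) (hs : s = a i + Psi q (c i) u / al) (h1 : s < a (i + 1) - 1)
    (h2 : ∀ j, i = j + 1 → a j + 5 / 2 < s) (h3 : i = 0 → 0 ≤ s) :
    s + 1 / al + d s = a i + Psi q (c i) (u + 1) / al ∧
      (1 + deriv d s) * deriv (Psi q (c i)) u = deriv (Psi q (c i)) (u + 1) := by
  have hq0 : (0 : ℝ) < q := by exact_mod_cast hq
  have hal0 : 0 < al := by linarith
  have hci0 := (L.c0 i).1
  have hciz : c i < z0 := lt_of_le_of_lt (L.c0 i).2 hcz
  have hci1 : c i ≤ 1 / 10 := hciz.le.trans hp.pf.le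
  have hP := (hPsi q (c i) hq hci0 hci1).2
  have hcq : c i / q ≤ 1 / 10 := by
    have hq1 : (1 : ℝ) ≤ q := by exact_mod_cast hq
    exact (div_le_self hci0 hq1).trans hci1
  have hv : al * (s - a i) = Psi q (c i) u := by
    rw [hs]
    field_simp
    ring
  obtain ⟨p1, p2, p3, p4, p5, p6, p7, p8, p9⟩ := hP u
  obtain ⟨r1, r2, r3, r4, r5, r6, r7, r8, r9⟩ := hP (u + 1)
  have habs := abs_le.1 (p3.trans hcq)
  rcases lt_or_ge |s - a i| (7 / 2) with hA | hA
  · -- inside the pass
    have hev : ∀ᶠ t in 𝓝 s, |t - a i| < 7 / 2 := by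
      have hc : ContinuousAt (fun t : ℝ => |t - a i|) s := by fun_prop
      exact hc.eventually (eventually_lt_nhds hA)
    constructor
    · have h4 := hp.step q (c i) u hq hci0 hciz
      rw [L.near i s hA.le, hv, ← h4, hs]
      field_simp
      ring
    · have h4 : d =ᶠ[𝓝 s] fun t => Φ ((c i : ℂ) * ee (q * (al * (t - a i))),
          al * (t - a i), 1 / q) / q / al := by
        filter_upwards [hev] with t ht
        rw [L.near i t ht.le, div_div]
      have h5 := (g_diff hp.pf hq hci0 hciz (al * (s - a i))).hasDerivAt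
      have h6 : HasDerivAt (fun t : ℝ => al * (t - a i)) (al * 1) s :=
        ((hasDerivAt_id s).sub_const (a i)).const_mul al
      have h7 := (h5.comp s h6).div_const al
      have h8 : HasDerivAt d _ s := h7.congr_of_eventuallyEq h4
      rw [h8.deriv, ← step_deriv hp hq hci0 hciz p4 r4, hv]
      have h9 : ∀ x : ℝ, x * (al * 1) / al = x := fun x => by field_simp
      rw [h9]
  · -- outside
    rcases le_abs.1 hA with hB | hB
    · -- after the pass
      have h4 : 7 / 2 ≤ Psi q (c i) u := by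
        rw [← hv]
        nlinarith
      have hu : 1 ≤ u := by linarith
      have h5 : ∀ᶠ t in 𝓝 s, d t = 0 := by
        refine dzero hp hq hal hcz L (i + 1) s h1 (fun j hj => ?_) (fun h => by omega)
        have : j = i := by omega
        rw [this]
        linarith
      have h6 : d s = 0 := h5.self_of_nhds
      have h7 : deriv d s = 0 := by
        have h8 : d =ᶠ[𝓝 s] fun _ => 0 := h5
        rw [h8.deriv_eq]
        simp
      have h9 : ee (q * (u + 1)) = ee (q * u) := by
        have := ee_q q 1 u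
        simpa using this
      constructor
      · rw [h6, r2 (by linarith), h9, hs, p2 hu]
        field_simp
        ring
      · rw [h7, p7 hu, r7 (by linarith), h9]
        ring
    · -- before the pass
      have h4 : Psi q (c i) u ≤ -(7 / 2) := by
        rw [← hv]
        nlinarith
      have hu : u + 1 ≤ 0 := by linarith
      have h5 : ∀ᶠ t in 𝓝 s, d t = 0 := by
        refine dzero hp hq hal hcz L i s (by linarith) h2 h3
      have h6 : d s = 0 := h5.self_of_nhds
      have h7 : deriv d s = 0 := by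
        have h8 : d =ᶠ[𝓝 s] fun _ => 0 := h5
        rw [h8.deriv_eq]
        simp
      constructor
      · rw [h6, r1 hu, hs, p1 (by linarith)]
        field_simp
        ring
      · rw [h7, p6 (by linarith), r6 hu]
        ring

end line

theorem gORB : Helper56.TOF.StmtPSI → Helper56.TOF.StmtORB := by
  rintro ⟨C, hC, hPsi⟩ z0 Φ Φ' hp q al c0 a c d hq hal hal2 hc0 hcz L S hS0 hS
  have hq1 : (1 : ℝ) ≤ q := by exact_mod_cast hq
  have hq0 : (0 : ℝ) < q := by linarith
  have hal0 : 0 < al := by linarith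
  have hinv : 1 / al ≤ 1 := (div_le_one hal0).2 hal
  have hinv2 : 10 / 11 ≤ 1 / al := by
    rw [div_le_div_iff₀ (by norm_num) hal0]
    linarith
  have hz1 : z0 ≤ 1 / 10 := hp.pf.le
  have hci : ∀ i, 0 ≤ c i ∧ c i < 1 / 10 := fun i =>
    ⟨(L.c0 i).1, by linarith [(L.c0 i).2]⟩
  have hPi : ∀ i u, |Psi q (c i) u - u| < 1 / 10 := fun i u => by
    have h1 := ((hPsi q (c i) hq (hci i).1 (hci i).2.le).2 u).2.2.1
    have h2 : c i / q ≤ c i := div_le_self (hci i).1 hq1
    linarith [(hci i).2]
  have hRd : ∀ i, |RR q al a c (i + 1) - RR q al a c i| ≤ 1 / 10 := fun i => by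
    have h1 := ((hPsi q (c i) hq (hci i).1 (hci i).2.le).2
      (al * (RR q al a c i - a i))).2.2.2.2.2.2.2.1
    have h2 : RR q al a c (i + 1) - RR q al a c i =
        -(eF ((c i : ℂ) * ee (q * (al * (RR q al a c i - a i)))) / (q * al)) := by
      rw [RR]
      ring
    rw [h2, abs_neg, abs_div, abs_of_pos (by positivity : 0 < (q : ℝ) * al)]
    have h3 : 1 ≤ (q : ℝ) * al := by nlinarith
    exact (div_le_self (abs_nonneg _) h3).trans (h1.trans (hci i).2.le)
  have hR : ∀ i : ℕ, RR q al a c i ≤ i / 10 := by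
    intro i
    induction i with
    | zero => simp [RR]
    | succ n ih =>
      have h1 := (abs_le.1 (hRd n)).2
      push_cast
      linarith
  intro k
  induction k with
  | zero =>
    intro i hw1 hw2
    have hi : i = 0 := by
      by_contra h
      obtain ⟨j, rfl⟩ : ∃ j, i = j + 1 := ⟨i - 1, by omega⟩
      have h1 := hw1 j rfl
      have h2 := hR (j + 1)
      have h3 := a_ge L j
      have h4 : (0 : ℝ) ≤ j := Nat.cast_nonneg j
      simp only [Nat.cast_zero, zero_div, add_zero] at h1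
      push_cast at h2
      linarith
    subst hi
    have h1 := L.a0
    have h2 : al * (RR q al a c 0 - a 0) + ((0 : ℕ) : ℝ) ≤ 0 := by
      simp only [RR, Nat.cast_zero, add_zero]
      nlinarith
    obtain ⟨p1, -, -, -, -, p6, -⟩ := (hPsi q (c 0) hq (hci 0).1 (hci 0).2.le).2
      (al * (RR q al a c 0 - a 0) + ((0 : ℕ) : ℝ))
    rw [p1 h2, p6 h2, hS0]
    refine ⟨?_, by simp⟩
    simp only [RR, Nat.cast_zero, add_zero, zero_sub]
    field_simp
    ring
  | succ k ih =>
    -- the step at a window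
    have key : ∀ i : ℕ, (∀ j, i = j + 1 → a j + 13 / 5 ≤ RR q al a c i + k / al) →
        RR q al a c i + k / al ≤ a (i + 1) - 3 / 2 →
        S (k + 1) = a i + Psi q (c i) (al * (RR q al a c i - a i) + (k + 1 : ℕ)) / al ∧
        ∏ j ∈ Finset.range (k + 1), (1 + deriv d (S j)) =
          (∏ j ∈ Finset.range i, (1 - c j ^ 2) / ‖1 + (c j : ℂ) * ww q a c j al‖ ^ 2) *
            deriv (Psi q (c i)) (al * (RR q al a c i - a i) + (k + 1 : ℕ)) := by
      intro i hw1 hw2
      obtain ⟨hSk, hpr⟩ := ih i hw1 hw2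
      have hx := abs_lt.1 (hPi i (al * (RR q al a c i - a i) + k))
      have hSk2 : S k = RR q al a c i + k / al +
          (Psi q (c i) (al * (RR q al a c i - a i) + k) -
            (al * (RR q al a c i - a i) + k)) / al := by
        rw [hSk]
        field_simp
        ring
      have hlo : -(1 / 10) < (Psi q (c i) (al * (RR q al a c i - a i) + k) -
            (al * (RR q al a c i - a i) + k)) / al := by
        rw [lt_div_iff₀ hal0]
        nlinarith [hx.1]
      have hhi : (Psi q (c i) (al * (RR q al a c i - a i) + k) -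
            (al * (RR q al a c i - a i) + k)) / al < 1 / 10 := by
        rw [div_lt_iff₀ hal0]
        nlinarith [hx.2]
      have hst := step hp hq hal hcz L hPsi i (al * (RR q al a c i - a i) + k) (S k) hSk
        (by linarith) (fun j hj => by have := hw1 j hj; linarith)
        (fun hi => by
          subst hi
          rcases Nat.eq_zero_or_pos k with hk | hk
          · rw [hk, hS0]
          · have h1 : (1 : ℝ) ≤ k := by exact_mod_cast hk
            have h2 : 1 / al ≤ k / al := div_le_div_of_nonneg_right h1 hal0.le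
            have h3 : RR q al a c 0 = 0 := rfl
            rw [h3] at hSk2 hlo
            linarith)
      have hcast : al * (RR q al a c i - a i) + ((k + 1 : ℕ) : ℝ) =
          al * (RR q al a c i - a i) + k + 1 := by
        push_cast
        ring
      rw [hcast]
      refine ⟨?_, ?_⟩
      · rw [hS k]
        exact hst.1
      · rw [Finset.prod_range_succ, hpr, ← hst.2]
        ring
    intro i hw1 hw2
    have hk1 : ((k + 1 : ℕ) : ℝ) / al = k / al + 1 / al := by
      push_cast
      ring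
    rw [hk1] at hw1 hw2
    by_cases hcase : ∀ j, i = j + 1 → a j + 13 / 5 ≤ RR q al a c i + k / al
    · exact key i hcase (by linarith)
    · push Not at hcase
      obtain ⟨j, rfl, hj⟩ := hcase
      have hw1' := hw1 j rfl
      have hd := abs_le.1 (hRd j)
      have hgap := L.gap j
      have hgap2 := L.gap (j + 1)
      obtain ⟨k1, k2⟩ := key j (fun j' hj' => by
          subst hj'
          have := L.gap j'
          linarith) (by linarith)
      -- the phase
      have hu1 : 1 ≤ al * (RR q al a c j - a j) + ((k + 1 : ℕ) : ℝ) := by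
        have h1 : al * (RR q al a c j - a j) + ((k + 1 : ℕ) : ℝ) =
            al * (RR q al a c j + (k / al + 1 / al) - a j) := by
          push_cast
          field_simp
          ring
        rw [h1]
        have h2 : 1 ≤ RR q al a c j + (k / al + 1 / al) - a j := by linarith
        nlinarith
      have hu0 : al * (RR q al a c (j + 1) - a (j + 1)) + ((k + 1 : ℕ) : ℝ) ≤ 0 := by
        have h1 : al * (RR q al a c (j + 1) - a (j + 1)) + ((k + 1 : ℕ) : ℝ) =
            al * (RR q al a c (j + 1) + (k / al + 1 / al) - a (j + 1)) := by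
          push_cast
          field_simp
          ring
        rw [h1]
        have h2 : RR q al a c (j + 1) + (k / al + 1 / al) - a (j + 1) ≤ 0 := by linarith
        nlinarith
      obtain ⟨-, p2, -, -, -, -, p7, -⟩ := (hPsi q (c j) hq (hci j).1 (hci j).2.le).2
        (al * (RR q al a c j - a j) + ((k + 1 : ℕ) : ℝ))
      obtain ⟨r1, -, -, -, -, r6, -⟩ := (hPsi q (c (j + 1)) hq (hci (j + 1)).1
        (hci (j + 1)).2.le).2 (al * (RR q al a c (j + 1) - a (j + 1)) + ((k + 1 : ℕ) : ℝ))
      rw [p2 hu1, ee_q] at k1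
      rw [p7 hu1, ee_q] at k2
      rw [r1 hu0, r6 hu0, k1, k2]
      constructor
      · have h1 : RR q al a c (j + 1) = RR q al a c j -
          eF ((c j : ℂ) * ee (q * (al * (RR q al a c j - a j)))) / (q * al) := rfl
        rw [h1]
        field_simp
        ring
      · rw [Finset.prod_range_succ, mul_one]
        rfl

end Pool.Agent.Helper66.TOF
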